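import Mathlib
import Pool.Agent.Helper95.FL.Stmts2

set_option autoImplicit false

/-!
# XT-C5: every closed walk of length five in the complex of a group has a chord
-/

namespace Pool.Agent.Helper43.FL

open Pool.Agent.Helper95.FL
open scoped Classical

variable {G : Type} [Group G]

theorem vert_eq_iff (H : Fin 3 → Subgroup G) (t : Fin 3) (g g' : G) :
    (grpCx H).vert t g = (grpCx H).vert t g' ↔ g⁻¹ * g' ∈ H t := by
  simp only [grpCx, Sigma.mk.injEq, heq_eq_eq, true_and]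
  exact QuotientGroup.eq

theorem chord5_core (U H : Fin 3 → Subgroup G) (m : ℕ) (hG : Geo U H m)
    (v₁ v₂ v₃ v₄ v₅ : Σ t : Fin 3, G ⧸ H t)
    (h24 : (grpCx H).ty v₄ = (grpCx H).ty v₂) (h35 : (grpCx H).ty v₅ = (grpCx H).ty v₃)
    (h13 : (grpCx H).ty v₁ ≠ (grpCx H).ty v₃) (n35 : v₃ ≠ v₅)
    (a12 : (grpCx H).Adj v₁ v₂) (a23 : (grpCx H).Adj v₂ v₃) (a34 : (grpCx H).Adj v₃ v₄)
    (a45 : (grpCx H).Adj v₄ v₅) (a51 : (grpCx H).Adj v₅ v₁) :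
    (grpCx H).Adj v₄ v₁ ∨ (grpCx H).Adj v₅ v₂ := by
  obtain ⟨t12, g12, p12, q12⟩ := a12
  obtain ⟨t23, g23, p23, q23⟩ := a23
  obtain ⟨t34, g34, p34, q34⟩ := a34
  obtain ⟨t45, g45, p45, q45⟩ := a45
  obtain ⟨t51, g51, p51, q51⟩ := a51
  set l := (grpCx H).ty v₁ with hl
  set a := (grpCx H).ty v₂ with ha
  set b := (grpCx H).ty v₃ with hb
  rw [h24] at q34 p45
  rw [h35] at q45 p51
  have iUl : H a ⊓ H b = U l := hG.inter a b l t23 (Ne.symm t12) (Ne.symm h13)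
  have iUa : H l ⊓ H b = U a := hG.inter l b a h13 t12 (Ne.symm t23)
  have iUb : H a ⊓ H l = U b := hG.inter a l b (Ne.symm t12) t23 h13
  have hx : g51⁻¹ * g12 ∈ H l := by
    rw [← vert_eq_iff, q51, p12]
  have hy : g12⁻¹ * g23 ∈ H a := by
    rw [← vert_eq_iff, q12, p23]
  have hz : g23⁻¹ * g34 ∈ H b := by
    rw [← vert_eq_iff, q23, p34]
  have hx' : g51⁻¹ * g45 ∈ H b := by
    rw [← vert_eq_iff, p51, q45]
  have hy' : g45⁻¹ * g34 ∈ H a := by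
    rw [← vert_eq_iff, p45, q34]
  have heq : g51⁻¹ * g12 * (g12⁻¹ * g23) * (g23⁻¹ * g34) = g51⁻¹ * g45 * (g45⁻¹ * g34) := by
    group
  rcases hG.l5 a b l t23 (Ne.symm t12) (Ne.symm h13) _ hx _ hy _ hz _ hx' _ hy' heq with
    h | ⟨u, hu, v, hv, huv⟩ | ⟨u, hu, v, hv, huv⟩
  · exfalso
    apply n35
    rw [← iUl] at h
    have h1 : (grpCx H).vert b g45 = (grpCx H).vert b g34 := by
      rw [vert_eq_iff]
      exact (Subgroup.mem_inf.1 h).2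
    rw [← p34, ← h1, q45]
  · left
    refine ⟨?_, g51 * u, ?_, ?_⟩
    · rw [h24]
      exact Ne.symm t12
    · rw [h24]
      have e : g51 * u = g45 * v⁻¹ := by
        have : g45 = g51 * (u * v) := by
          rw [← huv]; group
        rw [this]; group
      rw [e, ← p45, eq_comm, vert_eq_iff]
      rw [← iUl] at hv
      have : g45⁻¹ * (g45 * v⁻¹) = v⁻¹ := by group
      rw [this]
      exact (H a).inv_mem (Subgroup.mem_inf.1 hv).1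
    · rw [← hl]
      rw [← q51, eq_comm, vert_eq_iff]
      rw [← iUa] at hu
      have : g51⁻¹ * (g51 * u) = u := by group
      rw [this]
      exact (Subgroup.mem_inf.1 hu).1
  · right
    refine ⟨?_, g51 * u, ?_, ?_⟩
    · rw [h35]
      exact Ne.symm t23
    · rw [h35]
      rw [← p51, eq_comm, vert_eq_iff]
      rw [← iUa] at hu
      have : g51⁻¹ * (g51 * u) = u := by group
      rw [this]
      exact (Subgroup.mem_inf.1 hu).2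
    · rw [← ha]
      have e : g51 * u = g12 * v⁻¹ := by
        have : g12 = g51 * (u * v) := by
          rw [← huv]; group
        rw [this]; group
      rw [e, ← q12, eq_comm, vert_eq_iff]
      rw [← iUb] at hv
      have : g12⁻¹ * (g12 * v⁻¹) = v⁻¹ := by group
      rw [this]
      exact (H a).inv_mem (Subgroup.mem_inf.1 hv).1

theorem types5 : ∀ t₁ t₂ t₃ t₄ t₅ : Fin 3, t₁ ≠ t₂ → t₂ ≠ t₃ → t₃ ≠ t₄ → t₄ ≠ t₅ → t₅ ≠ t₁ →
    (t₄ = t₂ ∧ t₅ = t₃ ∧ t₁ ≠ t₃) ∨ (t₅ = t₃ ∧ t₁ = t₄ ∧ t₂ ≠ t₄) ∨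
    (t₁ = t₄ ∧ t₂ = t₅ ∧ t₃ ≠ t₅) ∨ (t₂ = t₅ ∧ t₃ = t₁ ∧ t₄ ≠ t₁) ∨
    (t₃ = t₁ ∧ t₄ = t₂ ∧ t₅ ≠ t₂) := by
  decide

theorem stChord5 : StChord5 := by
  intro G _ U H m hG v₁ v₂ v₃ v₄ v₅ h5
  obtain ⟨⟨n13, n24, n35, n41, n52⟩, a12, a23, a34, a45, a51⟩ := h5
  rcases types5 _ _ _ _ _ a12.1 a23.1 a34.1 a45.1 a51.1 with
    ⟨e1, e2, e3⟩ | ⟨e1, e2, e3⟩ | ⟨e1, e2, e3⟩ | ⟨e1, e2, e3⟩ | ⟨e1, e2, e3⟩
  · rcases chord5_core U H m hG v₁ v₂ v₃ v₄ v₅ e1 e2 e3 n35 a12 a23 a34 a45 a51 with h | h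
    · exact Or.inr (Or.inr (Or.inr (Or.inl h)))
    · exact Or.inr (Or.inr (Or.inr (Or.inr h)))
  · rcases chord5_core U H m hG v₂ v₃ v₄ v₅ v₁ e1 e2 e3 n41 a23 a34 a45 a51 a12 with h | h
    · exact Or.inr (Or.inr (Or.inr (Or.inr h)))
    · exact Or.inl h
  · rcases chord5_core U H m hG v₃ v₄ v₅ v₁ v₂ e1 e2 e3 n52 a34 a45 a51 a12 a23 with h | h
    · exact Or.inl h
    · exact Or.inr (Or.inl h)
  · rcases chord5_core U H m hG v₄ v₅ v₁ v₂ v₃ e1 e2 e3 n13 a45 a51 a12 a23 a34 with h | h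
    · exact Or.inr (Or.inl h)
    · exact Or.inr (Or.inr (Or.inl h))
  · rcases chord5_core U H m hG v₅ v₁ v₂ v₃ v₄ e1 e2 e3 n24 a51 a12 a23 a34 a45 with h | h
    · exact Or.inr (Or.inr (Or.inl h))
    · exact Or.inr (Or.inr (Or.inr (Or.inl h)))

end Pool.Agent.Helper43.FL
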